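import Pool.Agent.H18.CGR.Stmts

set_option autoImplicit false

namespace Pool.CGR

theorem pex_P_cons {α : Type} [DecidableEq α] {A : Type} [Ring A] [Algebra ℂ A] (τ : A →ₗ[ℂ] ℂ)
    (y : α → A) (j : α) (u : List α) :
    P τ y (j :: u) = P τ y u * y j -
      ∑ k ∈ Finset.range (u.length + 1), τ (P τ y (u.take k) * y j) • P τ y (u.drop k) := by
  rw [P]

theorem pex_P_nil {α : Type} [DecidableEq α] {A : Type} [Ring A] [Algebra ℂ A] (τ : A →ₗ[ℂ] ℂ)
    (y : α → A) : P τ y [] = 1 := by
  rw [P]

theorem pex_T {α : Type} [DecidableEq α] {A : Type} [Ring A] [Algebra ℂ A] (τ : A →ₗ[ℂ] ℂ)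
    (y : α → A) (j : α) (f : List α →₀ ℂ) :
    Finsupp.linearCombination ℂ (P τ y) (T (ky τ y) j f) =
      Finsupp.linearCombination ℂ (P τ y) f * y j := by
  have h : (Finsupp.linearCombination ℂ (P τ y)) ∘ₗ (T (ky τ y) j) =
      (LinearMap.mulRight ℂ (y j)) ∘ₗ (Finsupp.linearCombination ℂ (P τ y)) := by
    refine Finsupp.lhom_ext' fun u => LinearMap.ext_ring ?_
    simp only [LinearMap.comp_apply, Finsupp.lsingle_apply, LinearMap.mulRight_apply]
    rw [T_single, map_add, map_sum, Finsupp.linearCombination_single,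
      Finsupp.linearCombination_single, one_smul, one_smul, pex_P_cons]
    simp only [Finsupp.linearCombination_single, ky]
    abel
  exact LinearMap.congr_fun h f

theorem pex_nn {α : Type} [DecidableEq α] {A : Type} [Ring A] [Algebra ℂ A] (τ : A →ₗ[ℂ] ℂ)
    (y : α → A) (w : List α) :
    Finsupp.linearCombination ℂ (P τ y) (nn (ky τ y) w) = ev y w := by
  induction w using List.reverseRecOn with
  | nil => rw [nn_nil, Finsupp.linearCombination_single, one_smul, pex_P_nil]; simp [ev]
  | append_singleton w j ih => rw [nn_append, pex_T, ih]; simp [ev]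

theorem pex_tau {α : Type} [DecidableEq α] {A : Type} [Ring A] [Algebra ℂ A] (τ : A →ₗ[ℂ] ℂ)
    (y : α → A) (h1 : τ 1 = 1) (n : ℕ) :
    ∀ u : List α, u.length = n → τ (P τ y u) = if u = [] then 1 else 0 := by
  induction n using Nat.strong_induction_on with
  | _ n ih =>
    intro u hu
    cases u with
    | nil => simp [pex_P_nil, h1]
    | cons j u =>
      rw [pex_P_cons, map_sub, map_sum, if_neg (by simp)]
      rw [Finset.sum_eq_single u.length]
      · simp [pex_P_nil, h1]
      · intro k hk hk'
        rw [map_smul, ih (u.drop k).length (by simp at hu ⊢; omega) _ rfl, if_neg, smul_zero]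
        intro h
        have := congrArg List.length h
        simp at this hk
        omega
      · intro h
        simp at h

theorem pex_thm : PEXStmt := by
  intro α _ A _ _ τ y h1 w
  have h : τ ∘ₗ (Finsupp.linearCombination ℂ (P τ y)) = Finsupp.lapply ([] : List α) := by
    refine Finsupp.lhom_ext' fun u => LinearMap.ext_ring ?_
    simp only [LinearMap.comp_apply, Finsupp.lsingle_apply, Finsupp.lapply_apply]
    rw [Finsupp.linearCombination_single, one_smul, pex_tau τ y h1 _ u rfl,
      Finsupp.single_apply]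
  have h2 := LinearMap.congr_fun h (nn (ky τ y) w)
  simp only [LinearMap.comp_apply, Finsupp.lapply_apply] at h2
  rw [← h2, pex_nn]

end Pool.CGR
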